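import Pool.Agent.Helper791Seq.Main

set_option autoImplicit false

/-!
# Every finite set of positive integers is the set of sequential parameters of a connected graph

The numbering `f` gives labels to the vertices, the edge `uv` gets the label `|f u - f v|`.
The conditions say: vertex labels are distinct, edge labels are distinct (edges being unordered
pairs), no edge label is a vertex label, and the labels used are exactly
`k, k + 1, ..., k + n + m - 1`, where `n` is the number of vertices and `m` the number of edges.
-/

namespace Pool.Agent.Results.MP_288a40_co.SeqSpectrum

/-- For every finite set `S` of positive integers there is a finite connected graph which, for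
each positive integer `k`, has a `k`-sequential numbering exactly when `k ∈ S`. -/
theorem result :
    ∀ S : Finset ℕ, (∀ k ∈ S, 1 ≤ k) →
      ∃ (V : Type) (_ : Finite V) (G : SimpleGraph V), G.Connected ∧
        ∀ k : ℕ, 1 ≤ k →
          ((∃ f : V → ℕ, Function.Injective f ∧
              (∀ u v x y : V, G.Adj u v → G.Adj x y →
                ((f u : ℤ) - (f v : ℤ)).natAbs = ((f x : ℤ) - (f y : ℤ)).natAbs →
                s(u, v) = s(x, y)) ∧
              (∀ u v w : V, G.Adj u v → ((f u : ℤ) - (f v : ℤ)).natAbs ≠ f w) ∧
              Set.range f ∪ {x : ℕ | ∃ u v : V, G.Adj u v ∧ ((f u : ℤ) - (f v : ℤ)).natAbs = x}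
                = Set.Icc k (k + Nat.card V + G.edgeSet.ncard - 1))
            ↔ k ∈ S) := by
  intro S hS
  exact Pool.Agent.Helper791.Seq.main S hS

end Pool.Agent.Results.MP_288a40_co.SeqSpectrum
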